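import Mathlib

/-!
# Weighted sparsifiers: which blocks of weights are kept

Larger index = heavier block. A block is kept iff its rank is more than twice the rank of every heavier kept block.
-/

set_option autoImplicit false

namespace Pool.Agent.Helper21.SRW

open Finset

/-- the kept blocks -/
theorem keep_aux (rk : ℤ → ℕ) (Bl : Finset ℤ) : ∃ K : Finset ℤ, K ⊆ Bl ∧
    (∀ b ∈ Bl, b ∉ K → ∃ b' ∈ K, b < b' ∧ rk b ≤ 2 * rk b') ∧
    ∑ b ∈ K, rk b ≤ 2 * K.sup rk := by
  classical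
  induction Bl using Finset.induction_on_min with
  | empty => exact ⟨∅, by simp, by simp, by simp⟩
  | insert a s has ih =>
    obtain ⟨K, hKs, hK1, hK2⟩ := ih
    by_cases h : ∀ b' ∈ K, 2 * rk b' < rk a
    · have haK : a ∉ K := fun h1 => lt_irrefl a (has a (hKs h1))
      refine ⟨insert a K, Finset.insert_subset_insert a hKs, ?_, ?_⟩
      · intro b hb hbK
        rw [Finset.mem_insert] at hb
        rw [Finset.mem_insert, not_or] at hbK
        rcases hb with hb | hb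
        · exact absurd hb hbK.1
        · obtain ⟨b', h1, h2, h3⟩ := hK1 b hb hbK.2
          exact ⟨b', Finset.mem_insert_of_mem h1, h2, h3⟩
      · rw [Finset.sum_insert haK, Finset.sup_insert]
        have h1 : 2 * K.sup rk ≤ rk a := by
          rcases K.eq_empty_or_nonempty with h2 | h2
          · rw [h2]
            simp
          · obtain ⟨b, hb, hb2⟩ := Finset.exists_mem_eq_sup K h2 rk
            rw [hb2]
            exact (h b hb).le
        have h3 : rk a ≤ rk a ⊔ K.sup rk := le_sup_left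
        omega
    · push Not at h
      obtain ⟨b', hb', hb2⟩ := h
      refine ⟨K, hKs.trans (Finset.subset_insert a s), ?_, hK2⟩
      intro b hb hbK
      rw [Finset.mem_insert] at hb
      rcases hb with rfl | hb
      · exact ⟨b', hb', has b' (hKs hb'), hb2⟩
      · exact hK1 b hb hbK

/-- finite geometric sums -/
theorem geom_le (x : ℝ) (hx : 0 ≤ x) (hx1 : x ≤ 1 / 2) (T : Finset ℕ) (hT : ∀ j ∈ T, 1 ≤ j) :
    ∑ j ∈ T, x ^ j ≤ 2 * x := by
  classical
  have hx2 : x < 1 := by linarith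
  have h1 : ∑ j ∈ T, x ^ j = ∑ i ∈ T.image (fun j => j - 1), x * x ^ i := by
    rw [Finset.sum_image]
    · refine Finset.sum_congr rfl fun j hj => ?_
      have := hT j hj
      rw [← pow_succ']
      congr 1
      omega
    · intro a ha b hb hab
      have h1 := hT a (Finset.mem_coe.1 ha)
      have h2 := hT b (Finset.mem_coe.1 hb)
      have h3 : a - 1 = b - 1 := hab
      omega
  rw [h1, ← Finset.mul_sum]
  have h2 : ∑ i ∈ T.image (fun j => j - 1), x ^ i ≤ ∑' i : ℕ, x ^ i :=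
    (summable_geometric_of_lt_one hx hx2).sum_le_tsum _ (fun i _ => pow_nonneg hx i)
  rw [tsum_geometric_of_lt_one hx hx2] at h2
  have h3 : (1 - x)⁻¹ ≤ 2 := by
    rw [inv_le_comm₀ (by linarith) (by norm_num)]
    linarith
  calc x * ∑ i ∈ T.image (fun j => j - 1), x ^ i ≤ x * 2 :=
        mul_le_mul_of_nonneg_left (h2.trans h3) hx
    _ = 2 * x := by ring

/-- **Kept blocks.** -/
theorem keep (Bl : Finset ℤ) (rk : ℤ → ℕ) (A : ℤ → ℝ) (G : ℝ) (hG : 2 ≤ G) (r : ℕ)
    (hr : ∀ b ∈ Bl, rk b ≤ r) (hA0 : ∀ b ∈ Bl, 0 ≤ A b)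
    (hA : ∀ b ∈ Bl, ∀ b' ∈ Bl, b < b' → rk b ≤ 2 * rk b' →
      A b ≤ 2 * (1 / G) ^ (b' - b).toNat * A b') :
    ∃ K : Finset ℤ, K ⊆ Bl ∧ ∑ b ∈ K, rk b ≤ 2 * r ∧
      ∑ b ∈ Bl, A b ≤ (1 + 4 / G) * ∑ b ∈ K, A b := by
  classical
  obtain ⟨K, hKB, hK1, hK2⟩ := keep_aux rk Bl
  have hG0 : 0 < G := by linarith
  refine ⟨K, hKB, hK2.trans (Nat.mul_le_mul_left 2 (Finset.sup_le fun b hb => hr b (hKB hb))), ?_⟩
  have hφ : ∀ b, ∃ b', b ∈ Bl → b ∉ K → b' ∈ K ∧ b < b' ∧ rk b ≤ 2 * rk b' := by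
    intro b
    by_cases h : b ∈ Bl ∧ b ∉ K
    · obtain ⟨b', h1, h2, h3⟩ := hK1 b h.1 h.2
      exact ⟨b', fun _ _ => ⟨h1, h2, h3⟩⟩
    · exact ⟨b, fun h1 h2 => absurd ⟨h1, h2⟩ h⟩
  choose φ hφ using hφ
  have hsplit : ∑ b ∈ Bl, A b = ∑ b ∈ Bl \ K, A b + ∑ b ∈ K, A b :=
    (Finset.sum_sdiff hKB).symm
  have hdrop : ∑ b ∈ Bl \ K, A b ≤ (4 / G) * ∑ b ∈ K, A b := by
    have h1 : ∑ b ∈ Bl \ K, A b ≤ ∑ b ∈ Bl \ K, 2 * (1 / G) ^ (φ b - b).toNat * A (φ b) := by
      refine Finset.sum_le_sum fun b hb => ?_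
      have hb' := Finset.mem_sdiff.1 hb
      obtain ⟨h2, h3, h4⟩ := hφ b hb'.1 hb'.2
      exact hA b hb'.1 (φ b) (hKB h2) h3 h4
    have h2 : ∑ b ∈ Bl \ K, 2 * (1 / G) ^ (φ b - b).toNat * A (φ b) =
        ∑ b' ∈ K, ∑ b ∈ (Bl \ K).filter (fun b => φ b = b'),
          2 * (1 / G) ^ (φ b - b).toNat * A (φ b) := by
      refine (Finset.sum_fiberwise_of_maps_to (fun b hb => ?_) _).symm
      have hb' := Finset.mem_sdiff.1 hb
      exact (hφ b hb'.1 hb'.2).1
    rw [h2] at h1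
    refine h1.trans ?_
    rw [Finset.mul_sum]
    refine Finset.sum_le_sum fun b' hb' => ?_
    have h3 : ∑ b ∈ (Bl \ K).filter (fun b => φ b = b'),
        2 * (1 / G) ^ (φ b - b).toNat * A (φ b) =
        (2 * ∑ b ∈ (Bl \ K).filter (fun b => φ b = b'), (1 / G) ^ (b' - b).toNat) * A b' := by
      rw [Finset.mul_sum, Finset.sum_mul]
      refine Finset.sum_congr rfl fun b hb => ?_
      rw [(Finset.mem_filter.1 hb).2]
    rw [h3]
    refine mul_le_mul_of_nonneg_right ?_ (hA0 b' (hKB hb'))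
    have hlt : ∀ b ∈ (Bl \ K).filter (fun b => φ b = b'), b < b' := by
      intro b hb
      have hb1 := Finset.mem_filter.1 hb
      have hb2 := Finset.mem_sdiff.1 hb1.1
      have := (hφ b hb2.1 hb2.2).2.1
      rwa [hb1.2] at this
    have h4 : ∑ b ∈ (Bl \ K).filter (fun b => φ b = b'), (1 / G) ^ (b' - b).toNat =
        ∑ j ∈ ((Bl \ K).filter (fun b => φ b = b')).image (fun b => (b' - b).toNat),
          (1 / G) ^ j := by
      rw [Finset.sum_image]
      intro a ha b hb hab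
      have ha' := hlt a (Finset.mem_coe.1 ha)
      have hb'' := hlt b (Finset.mem_coe.1 hb)
      have hab' : (b' - a).toNat = (b' - b).toNat := hab
      omega
    rw [h4]
    have h5 := geom_le (1 / G) (by positivity)
      (one_div_le_one_div_of_le (by norm_num) hG)
      (((Bl \ K).filter (fun b => φ b = b')).image (fun b => (b' - b).toNat)) (by
        intro j hj
        obtain ⟨b, hb, rfl⟩ := Finset.mem_image.1 hj
        have := hlt b hb
        omega)
    calc 2 * ∑ j ∈ ((Bl \ K).filter (fun b => φ b = b')).image (fun b => (b' - b).toNat),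
          (1 / G) ^ j ≤ 2 * (2 * (1 / G)) := by linarith
      _ = 4 / G := by ring
  rw [hsplit]
  linarith

end Pool.Agent.Helper21.SRW
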